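import Pool.Agent.helper91.SI.Spec

/-!
PA4: the i-graph of the path with 4 vertices is not a path with 4 vertices.
-/

set_option autoImplicit false

namespace Pool.Agent.helper91.SI

open Pool.Agent.helper20.IG (IsIndepDom IsISet iGraph)

/-- Adjacency in the path, in natural numbers, as a Boolean. -/
def PA4_adj (u v : Fin 4) : Prop := u.val + 1 = v.val ∨ v.val + 1 = u.val

instance PA4_decAdj (u v : Fin 4) : Decidable (PA4_adj u v) := by
  unfold PA4_adj; infer_instance

theorem PA4_adj_iff (u v : Fin 4) : (SimpleGraph.pathGraph 4).Adj u v ↔ PA4_adj u v := by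
  rw [SimpleGraph.pathGraph_adj, PA4_adj]

theorem PA4_indep (S : Finset (Fin 4)) : IsIndepDom (SimpleGraph.pathGraph 4) S ↔
    ((∀ u ∈ S, ∀ v ∈ S, ¬ PA4_adj u v) ∧ ∀ v, v ∉ S → ∃ u ∈ S, PA4_adj u v) := by
  unfold IsIndepDom
  simp only [PA4_adj_iff]

/-- The three sets. -/
def PA4_three : Finset (Finset (Fin 4)) := {{0, 2}, {0, 3}, {1, 3}}

set_option maxRecDepth 100000 in
theorem PA4_list : ∀ S : Finset (Fin 4),
    ((∀ u ∈ S, ∀ v ∈ S, ¬ PA4_adj u v) ∧ ∀ v, v ∉ S → ∃ u ∈ S, PA4_adj u v) →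
    S.card ≤ 2 → S ∈ PA4_three := by
  decide

theorem PA4_mem (S : Finset (Fin 4)) (h : IsISet (SimpleGraph.pathGraph 4) S) :
    S ∈ PA4_three := by
  refine PA4_list S ((PA4_indep S).1 h.1) ?_
  have h1 : IsIndepDom (SimpleGraph.pathGraph 4) ({0, 2} : Finset (Fin 4)) := by
    rw [PA4_indep]
    decide
  have h2 := h.2 _ h1
  have h3 : ({0, 2} : Finset (Fin 4)).card = 2 := by decide
  omega

theorem PA4 : PA4_stmt := by
  refine ⟨fun e => ?_⟩
  have h1 : (Finset.univ.image (fun x : Fin 4 => (e.symm x).1)).card = 4 := by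
    rw [Finset.card_image_of_injective _ (fun x y hxy => e.symm.injective (Subtype.ext hxy))]
    simp
  have h2 : Finset.univ.image (fun x : Fin 4 => (e.symm x).1) ⊆ PA4_three := by
    intro S hS
    obtain ⟨x, -, rfl⟩ := Finset.mem_image.1 hS
    exact PA4_mem _ (e.symm x).2
  have h3 := Finset.card_le_card h2
  have h4 : PA4_three.card ≤ 3 := by decide
  omega

end Pool.Agent.helper91.SI
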